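import Pool.Agent.H66.GUA.Targets
import Pool.Agent.H28.GU.TargetsS

/-!
Statements of the bridge from the chapter A2/A3 to the definitions of the project GU on
`MP_c59857_nt`.
-/

set_option autoImplicit false

open Finset Filter Topology

namespace Pool.Agent.H66.GUA

open Pool.Agent.H31.DP
open Pool.Agent.H31.DPD
open Pool.Agent.H28.GU (Dl hat gG)

/-- [GI] The Fourier coefficients on the cyclic group are integer sums. -/
def T_GI : Prop :=
  ∀ (d l : ℕ) (h : Fin l → ℕ) (q : ℕ) [NeZero q] (N : ℕ) (s : Fin d → ZMod q) (ξ : ZMod q),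
    5 * N ≤ q → hat (Dl d s (gG q h N)) ξ = hs h N (lft s) ((ξ.val : ℝ) / q)

/-- [KN] The constant of the relation is not zero. -/
def T_KN : Prop :=
  ∀ (k n Q : ℕ) (x : ℤ) (t : Fin n → ℤ), 0 < k → 0 < Q → (∀ i, t i ≠ 0) →
    (∀ ω, 0 < vx x t ω ∧ vx x t ω ∣ (Q : ℤ)) → ∀ (q : ℕ), 2 ^ n * Q ^ k < q →
    ∑ ω : Finset (Fin n), (-1 : ZMod q) ^ ω.card * (((Q : ℤ) / vx x t ω : ℤ) : ZMod q) ^ k ≠ 0

end Pool.Agent.H66.GUA
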