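import Pool.Agent.H66.GUA.Targets2

/-!
Module GA of the chapter A2/A3 of the project GU on `MP_c59857_nt`: the bridge to the
statement `T_GA` of the project GU.
-/

set_option autoImplicit false

open Finset Filter Topology

namespace Pool.Agent.H66.GUA

open Pool.Agent.H31.DP
open Pool.Agent.H31.DPD
open Pool.Agent.H28.GU (Dl hat gG aff)

theorem pf_GA (hGB : T_GB) (hGI : T_GI) (hKN : T_KN) : Pool.Agent.H28.GU.T_GA := by
  classical
  intro d l h δ c₀ hδ hc₀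
  obtain ⟨δ₁, hδ₁⟩ : ∃ δ₁ : ℝ, δ₁ = min δ 1 := ⟨_, rfl⟩
  have hδ₁0 : 0 < δ₁ := by rw [hδ₁]; exact lt_min hδ one_pos
  have hδ₁1 : δ₁ ≤ 1 := by rw [hδ₁]; exact min_le_right _ _
  have hδ₁δ : δ₁ ≤ δ := by rw [hδ₁]; exact min_le_left _ _
  obtain ⟨θ, hθ, m₀, hm₀⟩ := hGB d l h δ₁ c₀ hδ₁0 hδ₁1 hc₀
  refine ⟨θ, hθ, m₀, fun m hm hcard => ?_⟩
  obtain ⟨P, hP0, hP1, f, hf, N₀, hN₀⟩ := hm₀ m hm hcard
  obtain ⟨Q, hQ⟩ : ∃ Q, Q = primorial (2 ^ (m + 1)) := ⟨_, rfl⟩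
  have hQ0 : 0 < Q := by rw [hQ]; exact primorial_pos _
  refine ⟨P, hP0, hP1, N₀ + 2 ^ nf d l * Q ^ (d + 1) + Q, 2 ^ (m + 1), 2 ^ nf d l, f, hf, ?_⟩
  intro M N q _ hN hMN hq1 hq2 hsum τ R hR hR2
  have hδq : ∀ z ∈ R, δ₁ * q ≤ ‖hs h N (lft z.1) (((τ z.1).val : ℝ) / q)‖ := by
    intro z hz
    have h1 := hR2 z hz
    rw [hGI d l h q N z.1 (τ z.1) hq1] at h1
    refine le_trans ?_ h1
    exact mul_le_mul_of_nonneg_right hδ₁δ (Nat.cast_nonneg q)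
  obtain ⟨x, t, c, r, F, ht, hvx, hF, hFy⟩ := hN₀ q N M (by omega) hMN hq1 hq2 hsum τ R
    (le_trans (mul_le_mul_of_nonneg_right hδ₁δ (by positivity)) hR) hδq
  rw [← hQ] at hvx hFy
  have hQN : Q ≤ N := by omega
  have hNq : 2 ^ nf d l * Q ^ (d + 1) < q := by
    have h1 : 0 < N := by omega
    omega
  have hQq : Q < q := by omega
  refine ⟨Finset (Fin (nf d l)), inferInstance,
    fun ω => (((Q : ℤ) / vx x t ω : ℤ) : ZMod q), fun ω => (vx x t ω).toNat,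
    fun ω => (-1) ^ ω.card * (((Q : ℤ) / vx x t ω : ℤ) : ZMod q), (Q : ZMod q), r, c, F,
    ?_, ?_, ?_, ?_, hF, ?_, ?_, ?_⟩
  · rw [Fintype.card_finset, Fintype.card_fin]
  · intro h0
    rw [ZMod.natCast_eq_zero_iff] at h0
    have := Nat.le_of_dvd hQ0 h0
    omega
  · intro ω
    obtain ⟨h1, h2, _⟩ := hvx ω
    have h3 : ((vx x t ω).toNat : ℤ) = vx x t ω := Int.toNat_of_nonneg h1.le
    constructor
    · have : (1 : ℤ) ≤ ((vx x t ω).toNat : ℤ) := by omega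
      exact_mod_cast this
    · have : ((vx x t ω).toNat : ℤ) ≤ ((2 ^ (m + 1) : ℕ) : ℤ) := by
        rw [h3]
        push_cast
        exact h2
      exact_mod_cast this
  · intro ω
    obtain ⟨h1, _, h2⟩ := hvx ω
    have h3 : ((vx x t ω).toNat : ℤ) = vx x t ω := Int.toNat_of_nonneg h1.le
    have h4 : (((vx x t ω).toNat : ℕ) : ZMod q) = ((vx x t ω : ℤ) : ZMod q) := by
      conv_rhs => rw [← h3]
      exact (Int.cast_natCast _).symm
    rw [h4, ← Int.cast_mul, Int.ediv_mul_cancel h2]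
    push_cast
    rfl
  · intro z hz ω
    exact (hFy z hz).1 ω
  · intro z hz
    exact (hFy z hz).2
  · have h1 := hKN (d + 1) (nf d l) Q x t (by omega) hQ0 ht
      (fun ω => ⟨(hvx ω).1, (hvx ω).2.2⟩) q hNq
    intro h2
    apply h1
    rw [← h2]
    apply Finset.sum_congr rfl
    intro ω _
    rw [pow_succ]
    ring

end Pool.Agent.H66.GUA
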