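import Pool.Agent.H31.DPD.Targets

/-!
Definitions for the chapter A2/A3 (affine trick) of the project GU on `MP_c59857_nt`.
-/

set_option autoImplicit false

open Finset Filter Topology

namespace Pool.Agent.H66.GUA

open Pool.Agent.H91.LF (lz Bdd Mean sqw par)
open Pool.Agent.H24.T2 (Pset box cub)
open Pool.Agent.H31.DP
open Pool.Agent.H31.DPD

/-- The integer vector of the centered representatives. -/
def lft {q d : ℕ} (s : Fin d → ZMod q) : Fin d → ℤ := fun i => (s i).valMinAbs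

/-- The reduction of an integer vector. -/
def red (q : ℕ) {d : ℕ} (z : Fin d → ℤ) : Fin d → ZMod q := fun i => (z i : ZMod q)

/-- The vector `(s₀, z)`. -/
def cns {d : ℕ} (s₀ : ℤ) (z : Fin d → ℤ) : Fin (d + 1) → ℤ := Fin.cons s₀ z

/-- The product of `x` with the vector `z`. -/
def sm {d : ℕ} (x : ℤ) (z : Fin d → ℤ) : Fin d → ℤ := fun i => x * z i

/-- The twisted sum of the cube product of `FF h 1`, all the vertices in `[1, N]`. -/
noncomputable def hs {l d : ℕ} (h : Fin l → ℕ) (N : ℕ) (s : Fin d → ℤ) (θ : ℝ) : ℂ :=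
  ∑ n ∈ IC N s, ((GC h 1 s n : ℝ) : ℂ) * ee (n * θ)

/-- The correlations over the cubes with sides `(s₀, z)`, `s₀` in `Q ℤ`, twisted. -/
noncomputable def RZ {l d : ℕ} (h : Fin l → ℕ) (p Q M : ℕ) (z : Fin d → ℤ) (φ : ℝ) : ℂ :=
  ∑ s₀ ∈ mul Q M, ee (s₀ * φ) * ((CAc h p M (cns s₀ z) : ℝ) : ℂ)

/-- The balanced correlations over the cubes with sides `(s₀, z)`, `s₀` in `p ℤ`. -/
noncomputable def TZ {l d : ℕ} (h : Fin l → ℕ) (p M : ℕ) (z : Fin d → ℤ) : ℝ :=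
  ∑ s₀ ∈ mul p M, |TTc h p M (cns s₀ z)|

/-- The point `c + (Q / x) u`. -/
def pt (Q : ℕ) {d : ℕ} (u c : Fin d → ℤ) (x : ℤ) : Fin d → ℤ := fun i => c i + (Q : ℤ) / x * u i

/-- The phase `τ (c + (Q / x) u) / (q x)`. -/
noncomputable def phs {q d : ℕ} (τ : (Fin d → ZMod q) → ZMod q) (Q : ℕ) (u c : Fin d → ℤ)
    (x : ℤ) : ℝ :=
  ((τ (red q (pt Q u c x))).val : ℝ) / q / x

/-- The `p ∈ A` for which `(c + (Q / p) u, b)` lies in `R`. -/
def As {q d : ℕ} (A : Finset ℕ) (R : Finset ((Fin d → ZMod q) × (Fin d → ZMod q))) (Q : ℕ)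
    (u c : Fin d → ℤ) (b : Fin d → ZMod q) : Finset ℕ :=
  A.filter (fun p => (red q (pt Q u c (p : ℤ)), b) ∈ R)

/-- The vertices of the cube `x + ω . t`. -/
def vx {n : ℕ} (x : ℤ) (t : Fin n → ℤ) (ω : Finset (Fin n)) : ℤ := x + ∑ i ∈ ω, t i

/-- The alternating sum of `(Q / x_ω) τ (c + (Q / x_ω) u)` over the vertices of the cube. -/
def rho {q d n : ℕ} (τ : (Fin d → ZMod q) → ZMod q) (Q : ℕ) (u c : Fin d → ℤ) (x : ℤ)
    (t : Fin n → ℤ) : ℤ :=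
  ∑ ω : Finset (Fin n), (-1) ^ ω.card * ((Q : ℤ) / vx x t ω) *
    ((τ (red q (pt Q u c (vx x t ω)))).val : ℤ)

/-- The functions of the generalised von Neumann inequality. -/
noncomputable def GG {l d : ℕ} (M B : ℕ) (Q s₀ : ℤ) (u : Fin d → ℤ)
    (x : Finset (Fin d) × Option (Fin l)) (z : ℤ) : ℝ :=
  match x.2 with
  | none => ind ((1 ≤ z + Q * sI u x.1 ∧ z + Q * sI u x.1 ≤ M) ∧
      (1 ≤ z + Q * sI u x.1 + s₀ ∧ z + Q * sI u x.1 + s₀ ≤ M))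
  | some _ => ind (1 ≤ z + Q * sI u x.1 ∧ z + Q * sI u x.1 ≤ (M : ℤ) + B) *
      (lz (z + Q * sI u x.1) * lz (z + Q * sI u x.1 + s₀))

/-- The coefficients of `p` in the arguments. -/
def vv {l d : ℕ} (h : Fin l → ℕ) (c : Fin d → ℤ) (x : Finset (Fin d) × Option (Fin l)) : ℤ :=
  sI c x.1 + match x.2 with
  | none => 0
  | some i => (h i : ℤ)

/-- The number of functions. -/
def nf (d l : ℕ) : ℕ := 2 ^ d * (l + 1)

/-- The sum over the cubes of the geometric sums. -/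
noncomputable def Om3 {q : ℕ} [NeZero q] {d : ℕ} (n N M Q X : ℕ) (A : Finset ℕ)
    (R : Finset ((Fin d → ZMod q) × (Fin d → ZMod q))) (τ : (Fin d → ZMod q) → ZMod q) : ℝ :=
  ∑ u ∈ box d (M / Q), ∑ c ∈ box d (3 * N), ∑ b : Fin d → ZMod q, ∑ t ∈ box n X,
    ∑ x ∈ cub n ((As A R Q u c b).map Nat.castEmbedding) t,
      ‖∑ s₀ ∈ mul Q M, ee (s₀ * dl n t (phs τ Q u c) x)‖

/-- The sum of the norms of the sums over `p`. -/
noncomputable def Om2 {q : ℕ} [NeZero q] {l d : ℕ} (h : Fin l → ℕ) (N M Q : ℕ) (A : Finset ℕ)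
    (R : Finset ((Fin d → ZMod q) × (Fin d → ZMod q))) (τ : (Fin d → ZMod q) → ZMod q) : ℝ :=
  ∑ u ∈ box d (M / Q), ∑ c ∈ box d (3 * N), ∑ b : Fin d → ZMod q, ∑ s₀ ∈ mul Q M,
    ‖∑ p ∈ As A R Q u c b, ee (s₀ * phs τ Q u c (p : ℤ)) *
      ((CAc h p M (cns s₀ (sm p (pt Q u c (p : ℤ)))) : ℝ) : ℂ)‖

end Pool.Agent.H66.GUA
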