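import Pool.Agent.H66.GUA.Targets

/-!
Module GB of the chapter A2/A3 of the project GU on `MP_c59857_nt`: numerical lemmas.
-/

set_option autoImplicit false

open Finset Filter Topology

namespace Pool.Agent.H66.GUA

open Pool.Agent.H24.T2 (Pset box cub)
open Pool.Agent.H31.DP
open Pool.Agent.H31.DPD

/-- The number of good primes. -/
theorem card_good {α : Type} (A S : Finset α) (D : α → ℝ) (hAS : A ⊆ S) (hD : ∀ p ∈ S, 0 ≤ D p)
    (θ κ V : ℝ) (hθ : 0 < θ) (hκ : 0 < κ) (hV : 0 < V)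
    (hsum : ∑ p ∈ S, D p ≤ θ * S.card * V) (hA : κ / 2 * S.card ≤ A.card) :
    κ / 4 * S.card ≤ ((A.filter (fun p => D p ≤ 4 * θ / κ * V)).card : ℝ) := by
  classical
  have h1 : ((A.filter (fun p => ¬ D p ≤ 4 * θ / κ * V)).card : ℝ) * (4 * θ / κ * V) ≤
      θ * S.card * V := by
    refine le_trans ?_ hsum
    rw [← nsmul_eq_mul]
    calc (A.filter (fun p => ¬ D p ≤ 4 * θ / κ * V)).card • (4 * θ / κ * V)
        ≤ ∑ p ∈ A.filter (fun p => ¬ D p ≤ 4 * θ / κ * V), D p := by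
          apply Finset.card_nsmul_le_sum
          intro p hp
          rw [Finset.mem_filter, not_le] at hp
          exact hp.2.le
      _ ≤ ∑ p ∈ S, D p := by
          apply Finset.sum_le_sum_of_subset_of_nonneg
          · exact (Finset.filter_subset _ _).trans hAS
          · intro p hp _
            exact hD p hp
  have h2 : ((A.filter (fun p => ¬ D p ≤ 4 * θ / κ * V)).card : ℝ) ≤ κ / 4 * S.card := by
    have h3 : ((A.filter (fun p => ¬ D p ≤ 4 * θ / κ * V)).card : ℝ) * (4 * θ / κ * V) ≤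
        (κ / 4 * S.card) * (4 * θ / κ * V) := by
      refine le_trans h1 (le_of_eq ?_)
      field_simp
    exact le_of_mul_le_mul_right h3 (by positivity)
  have h4 : ((A.filter (fun p => D p ≤ 4 * θ / κ * V)).card : ℝ) +
      ((A.filter (fun p => ¬ D p ≤ 4 * θ / κ * V)).card : ℝ) = A.card := by
    exact_mod_cast Finset.card_filter_add_card_filter_not (s := A) (fun p => D p ≤ 4 * θ / κ * V)
  linarith

/-- The change of the length. -/
theorem floor_diff (M P p N X m : ℕ) (κ : ℝ) (hP : 2 ^ m ≤ P) (hPp : P < p) (hpX : p ≤ P + X)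
    (hX : (X : ℝ) ≤ κ * 2 ^ m + 1) (hκ : 0 < κ) (h1 : 1 ≤ κ * 2 ^ m) (hN : M / P = N)
    (hN1 : 1 ≤ κ * N) (hN2 : 1 ≤ N) : (N : ℝ) - ((M / p : ℕ) : ℝ) ≤ 5 * κ * N := by
  have hP0 : 0 < P := lt_of_lt_of_le (by positivity) hP
  have hp0 : 0 < p := lt_trans hP0 hPp
  have hPr : (0 : ℝ) < P := by exact_mod_cast hP0
  have hpr : (0 : ℝ) < p := by exact_mod_cast hp0
  have hN2r : (1 : ℝ) ≤ N := by exact_mod_cast hN2
  -- M < P (N + 1)
  have hM : (M : ℝ) ≤ P * (N + 1) := by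
    have : M < P * (N + 1) := by
      rw [← hN]
      have := Nat.lt_mul_div_succ M hP0
      simpa [Nat.succ_eq_add_one] using this
    exact_mod_cast this.le
  have hNM : (N : ℝ) * P ≤ M := by
    rw [← hN]
    exact_mod_cast Nat.div_mul_le_self M P
  -- M / p ≥ M/p - 1
  have hfl : (M : ℝ) / p - 1 ≤ ((M / p : ℕ) : ℝ) := by
    have h2 : (M : ℝ) < p * (((M / p : ℕ) : ℝ) + 1) := by
      have := Nat.lt_mul_div_succ M hp0
      have h3 : M < p * (M / p + 1) := by simpa [Nat.succ_eq_add_one] using this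
      exact_mod_cast h3
    have h4 : (M : ℝ) / p < ((M / p : ℕ) : ℝ) + 1 := by
      rw [div_lt_iff₀ hpr]
      linarith
    linarith
  have hPm : (2 : ℝ) ^ m ≤ P := by exact_mod_cast hP
  have hpPX : (p : ℝ) - P ≤ X := by
    have : (p : ℝ) ≤ P + X := by exact_mod_cast hpX
    linarith
  have hX2 : (X : ℝ) ≤ 2 * κ * P := by
    have h5 : κ * 2 ^ m ≤ κ * P := mul_le_mul_of_nonneg_left hPm hκ.le
    linarith
  have hpP : (P : ℝ) ≤ p := by exact_mod_cast hPp.le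
  -- N - M/p ≤ M/P - M/p ...
  have h6 : (N : ℝ) - (M : ℝ) / p ≤ 4 * κ * N := by
    have h7 : (N : ℝ) * p - M ≤ 2 * κ * P * N := by
      have h8 : (N : ℝ) * (p - P) ≤ N * (2 * κ * P) :=
        mul_le_mul_of_nonneg_left (le_trans hpPX hX2) (by linarith)
      nlinarith
    have h9 : (N : ℝ) - (M : ℝ) / p = (N * p - M) / p := by
      field_simp
    rw [h9, div_le_iff₀ hpr]
    have h10 : 2 * κ * P * N ≤ 4 * κ * N * p := by
      have h11 : κ * N * P ≤ κ * N * p := mul_le_mul_of_nonneg_left hpP (by positivity)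
      have h12 : 0 ≤ κ * N * p := by positivity
      nlinarith
    linarith
  linarith

/-- Pigeonhole for the primes. -/
theorem card_short (S : ℕ) (T : ℝ) (X m : ℕ) (κ : ℝ) (hκ : 0 < κ) (hκ1 : κ ≤ 1)
    (hX : κ * 2 ^ m ≤ X) (h : (S : ℝ) * X ≤ (2 ^ m + X) * T) (hT : 0 ≤ T) :
    κ / 2 * S ≤ T := by
  have h2m : (0 : ℝ) < 2 ^ m := by positivity
  have hX0 : (0 : ℝ) < X := lt_of_lt_of_le (by positivity) hX
  have h1 : κ * (2 ^ m + X) ≤ 2 * X := by nlinarith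
  have h2 : κ / 2 * S * X ≤ T * X := by
    have h3 : κ / 2 * ((S : ℝ) * X) ≤ κ / 2 * ((2 ^ m + X) * T) :=
      mul_le_mul_of_nonneg_left h (by positivity)
    have h4 : κ / 2 * ((2 ^ m + X) * T) ≤ X * T := by
      have h5 : κ * (2 ^ m + X) * T ≤ 2 * X * T := mul_le_mul_of_nonneg_right h1 hT
      linarith
    linarith
  exact le_of_mul_le_mul_right h2 hX0

/-- The lower bound for `Om3`. -/
theorem om3_lower (D n : ℕ) (hDn : n + 1 ≤ D) (V T L Y O₂ O₃ v : ℝ) (hT : 0 < T) (hL : 0 < L)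
    (hY : 0 < Y) (hv : 0 ≤ v) (hV : v * (T * L * Y) ≤ V) (hVO : V ≤ O₂)
    (hHO : O₂ ^ D ≤ T ^ (D - 1) * (L ^ D * Y ^ (D - (n + 1))) * O₃) :
    v ^ D * (T * Y ^ (n + 1)) ≤ O₃ := by
  have hV0 : 0 ≤ V := le_trans (by positivity) hV
  have h1 : (v * (T * L * Y)) ^ D ≤ T ^ (D - 1) * (L ^ D * Y ^ (D - (n + 1))) * O₃ :=
    le_trans (pow_le_pow_left₀ (by positivity) (le_trans hV hVO) D) hHO
  have h2 : (v * (T * L * Y)) ^ D =
      (T ^ (D - 1) * (L ^ D * Y ^ (D - (n + 1)))) * (v ^ D * (T * Y ^ (n + 1))) := by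
    have e1 : T ^ D = T ^ (D - 1) * T := by
      rw [← pow_succ]
      congr 1
      omega
    have e2 : Y ^ D = Y ^ (D - (n + 1)) * Y ^ (n + 1) := by
      rw [← pow_add]
      congr 1
      omega
    rw [mul_pow, mul_pow, mul_pow, e1, e2]
    ring
  rw [h2] at h1
  exact le_of_mul_le_mul_left h1 (by positivity)

/-- The constant in front. -/
theorem v_lower (d : ℕ) (A δ P q Q U N L X M : ℝ) (hA : 0 ≤ A) (hδ : 0 < δ) (hP : 0 < P)
    (hq : 0 < q) (hQ : 0 < Q) (hU : 0 ≤ U) (hN : 1 ≤ N) (hL : 0 < L) (hX : 0 < X) (hM : 0 < M)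
    (h1 : 6 * N + 1 ≤ 2 * q) (h2 : Q * (2 * U + 1) ≤ 3 * M) (h3 : L ≤ (2 * d + 2) * M)
    (h4 : M ≤ P * q) :
    A * δ ^ 3 / (48 * (d + 1) * 2 ^ d * X) *
      (((2 * U + 1) ^ (d + 1) * (6 * N + 1) ^ d * q ^ d) * L * X) ≤
      A * (2 * U + 1) ^ d * (δ ^ 3 / 8 * P ^ 2 * q ^ (2 * d + 2)) / Q := by
  have hU1 : 0 < 2 * U + 1 := by linarith
  have hN1 : 0 < 6 * N + 1 := by linarith
  rw [le_div_iff₀ hQ]
  have e1 : A * δ ^ 3 / (48 * (d + 1) * 2 ^ d * X) *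
      (((2 * U + 1) ^ (d + 1) * (6 * N + 1) ^ d * q ^ d) * L * X) * Q =
      (A * δ ^ 3 * (2 * U + 1) ^ d * q ^ d / (48 * (d + 1) * 2 ^ d)) *
        ((Q * (2 * U + 1)) * (6 * N + 1) ^ d * L) := by
    field_simp
    ring
  have e2 : (Q * (2 * U + 1)) * (6 * N + 1) ^ d * L ≤
      (3 * M) * (2 * q) ^ d * ((2 * d + 2) * M) := by
    apply mul_le_mul
    · exact mul_le_mul h2 (pow_le_pow_left₀ hN1.le h1 d) (by positivity) (by positivity)
    · exact h3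
    · exact hL.le
    · positivity
  have e3 : (3 * M) * (2 * q) ^ d * ((2 * d + 2) * M) ≤
      6 * (d + 1) * 2 ^ d * q ^ d * (P * q) ^ 2 := by
    have h5 : M ^ 2 ≤ (P * q) ^ 2 := pow_le_pow_left₀ hM.le h4 2
    calc (3 * M) * (2 * q) ^ d * ((2 * d + 2) * M)
        = (6 * (d + 1) * 2 ^ d * q ^ d) * M ^ 2 := by rw [mul_pow]; ring
      _ ≤ (6 * (d + 1) * 2 ^ d * q ^ d) * (P * q) ^ 2 :=
        mul_le_mul_of_nonneg_left h5 (by positivity)
      _ = 6 * (d + 1) * 2 ^ d * q ^ d * (P * q) ^ 2 := by ring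
  rw [e1]
  calc (A * δ ^ 3 * (2 * U + 1) ^ d * q ^ d / (48 * (d + 1) * 2 ^ d)) *
        ((Q * (2 * U + 1)) * (6 * N + 1) ^ d * L)
      ≤ (A * δ ^ 3 * (2 * U + 1) ^ d * q ^ d / (48 * (d + 1) * 2 ^ d)) *
        (6 * (d + 1) * 2 ^ d * q ^ d * (P * q) ^ 2) :=
        mul_le_mul_of_nonneg_left (le_trans e2 e3) (by positivity)
    _ = A * (2 * U + 1) ^ d * (δ ^ 3 / 8 * P ^ 2 * q ^ (2 * d + 2)) := by
        have e4 : q ^ (2 * d + 2) = q ^ d * q ^ d * q ^ 2 := by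
          rw [← pow_add, ← pow_add]
          congr 1
          ring
        rw [e4]
        field_simp
        ring

/-- The parameter `m₀`. -/
theorem exists_m0 (D n : ℕ) (c κ : ℝ) (hc : 0 < c) (hκ : 0 < κ) :
    ∃ m₀ : ℕ, ∀ m : ℕ, m₀ ≤ m → 1 ≤ m ∧ 3 / 2 ≤ κ * 2 ^ m ∧
      4 * (n : ℝ) ≤ (c / m) ^ D * (2 * (κ * 2 ^ m)) := by
  have h1 : Tendsto (fun m : ℕ => (m : ℝ) ^ D / (2 : ℝ) ^ m) atTop (𝓝 0) :=
    tendsto_pow_const_div_const_pow_of_one_lt D (by norm_num)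
  have h2 : Tendsto (fun m : ℕ => (m : ℝ) ^ 0 / (2 : ℝ) ^ m) atTop (𝓝 0) :=
    tendsto_pow_const_div_const_pow_of_one_lt 0 (by norm_num)
  have e1 : ∀ᶠ m : ℕ in atTop, (m : ℝ) ^ D / (2 : ℝ) ^ m < c ^ D * (2 * κ) / (4 * n + 1) :=
    h1.eventually (gt_mem_nhds (by positivity))
  have e2 : ∀ᶠ m : ℕ in atTop, (m : ℝ) ^ 0 / (2 : ℝ) ^ m < κ / (3 / 2) :=
    h2.eventually (gt_mem_nhds (by positivity))
  obtain ⟨m₀, hm₀⟩ := (e1.and (e2.and (eventually_ge_atTop 1))).exists_forall_of_atTop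
  refine ⟨m₀, fun m hm => ?_⟩
  obtain ⟨a1, a2, a3⟩ := hm₀ m hm
  have hm : (0 : ℝ) < m := by exact_mod_cast a3
  have h2m : (0 : ℝ) < 2 ^ m := by positivity
  refine ⟨a3, ?_, ?_⟩
  · rw [pow_zero, div_lt_div_iff₀ h2m (by norm_num)] at a2
    linarith
  · rw [div_lt_div_iff₀ h2m (by positivity)] at a1
    have hmD : (0 : ℝ) < (m : ℝ) ^ D := by positivity
    rw [div_pow]
    have h3 : c ^ D / (m : ℝ) ^ D * (2 * (κ * 2 ^ m)) =
        (c ^ D * (2 * κ) * 2 ^ m) / (m : ℝ) ^ D := by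
      field_simp
    rw [h3, le_div_iff₀ hmD]
    nlinarith

theorem aux_NM {P N M : ℕ} (hP : 0 < P) (h : P * N ≤ M) : N ≤ M :=
  le_trans (Nat.le_mul_of_pos_left N hP) h

theorem aux_Mp {P N M p : ℕ} (h : M < P * (N + 1)) (hNP : P ≤ N) (hp : P + 1 ≤ p) :
    M ≤ N * p := by
  have h1 : N * (P + 1) ≤ N * p := Nat.mul_le_mul_left N hp
  have h2 : P * (N + 1) ≤ N * (P + 1) := by
    rw [Nat.mul_add, Nat.mul_add, Nat.mul_comm N P]
    omega
  omega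

theorem aux_QU {Q U M : ℕ} (h : Q * U ≤ M) (hQM : Q ≤ M) : Q * (2 * U + 1) ≤ 3 * M := by
  have : Q * (2 * U + 1) = 2 * (Q * U) + Q := by ring
  omega

theorem aux_Ulow {Q U M N q : ℝ} (hQ : 0 < Q) (hU : 1 ≤ U) (h1 : M < Q * (U + 1))
    (h3 : N ≤ M) (hq : q ≤ 11 * N) : q / (11 * Q) ≤ 2 * U + 1 := by
  rw [div_le_iff₀ (by positivity)]
  have h6 : Q * (U + 1) ≤ Q * (2 * U + 1) := mul_le_mul_of_nonneg_left (by linarith) hQ.le
  linarith

end Pool.Agent.H66.GUA
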