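import Pool.Agent.H66.GUA.Defs

/-!
Statements of the modules of the chapter A2/A3 (affine trick) of the project GU on
`MP_c59857_nt`.
-/

set_option autoImplicit false

open Finset Filter Topology

namespace Pool.Agent.H66.GUA

open Pool.Agent.H91.LF (lz Bdd Mean sqw par)
open Pool.Agent.H24.T2 (Pset box cub)
open Pool.Agent.H31.DP
open Pool.Agent.H31.DPD

/-! ## One prime -/

/-- [CC] Separating one side of the cube. -/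
def T_CC : Prop :=
  ∀ (d l : ℕ) (h : Fin l → ℕ) (p M : ℕ) (s₀ : ℤ) (z : Fin d → ℤ) (y : ℤ),
    (y ∈ IC M (cns s₀ z) ↔ y ∈ IC M z ∧ y + s₀ ∈ IC M z) ∧
    GC h p (cns s₀ z) y = GC h p z y * GC h p z (y + s₀)

/-- [DL] Dilation by `p`. -/
def T_DL : Prop :=
  ∀ (d l : ℕ) (h : Fin l → ℕ) (p M : ℕ) (s : Fin d → ℤ) (θ : ℝ), p.Prime →
    ‖∑ y ∈ (IC M (sm p s)).filter (fun y => (p : ℤ) ∣ y),
      ((GC h p (sm p s) y : ℝ) : ℂ) * ee (y * (θ / p))‖ = ‖hs h (M / p) s θ‖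

/-- [SR] The square of the sum over the multiples of `p`. -/
def T_SR : Prop :=
  ∀ (a : ℤ → ℝ) (M p : ℕ) (θ : ℝ), 0 < p → (∀ y, y ∉ Finset.Icc (1 : ℤ) M → a y = 0) →
    (p : ℝ) ^ 2 * ‖∑ y ∈ (Finset.Icc (1 : ℤ) M).filter (fun y => (p : ℤ) ∣ y),
      ((a y : ℝ) : ℂ) * ee (y * (θ / p))‖ ^ 2 =
      p * (∑ s ∈ mul p M, ee (s * (θ / p)) *
        ((∑ y ∈ Finset.Icc (1 : ℤ) M, (1 + bal p y) * (a y * a (y + s)) : ℝ) : ℂ)).re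

/-- [KR] Refining the residue classes. -/
def T_KR : Prop :=
  ∀ (a : ℤ → ℝ) (M p Q : ℕ) (θ : ℝ), 0 < p → 0 < Q → p ∣ Q →
    (∀ y, y ∉ Finset.Icc (1 : ℤ) M → a y = 0) →
    p * (∑ s ∈ mul p M, ee (s * (θ / p)) *
      ((∑ y ∈ Finset.Icc (1 : ℤ) M, a y * a (y + s) : ℝ) : ℂ)).re ≤
    Q * (∑ s ∈ mul Q M, ee (s * (θ / p)) *
      ((∑ y ∈ Finset.Icc (1 : ℤ) M, a y * a (y + s) : ℝ) : ℂ)).re

/-- [LA] The comparison for one prime and one cube. -/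
def T_LA : Prop :=
  ∀ (d l : ℕ) (h : Fin l → ℕ) (p Q M : ℕ) (s : Fin d → ℤ) (θ : ℝ), p.Prime → p ∣ Q → 0 < Q →
    (p : ℝ) ^ 2 * ‖hs h (M / p) s θ‖ ^ 2 ≤
      Q * (RZ h p Q M (sm p s) (θ / p)).re + p * TZ h p M (sm p s)

/-- [CN] Changing the length. -/
def T_CN : Prop :=
  ∀ (d l : ℕ) (h : Fin l → ℕ) (N N' : ℕ) (s : Fin d → ℤ) (θ : ℝ), N' ≤ N →
    ‖hs h N s θ‖ ≤ ‖hs h N' s θ‖ + 2 ^ d * ((N : ℝ) - N')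

/-- [TP] The balanced correlations are small in the mean. -/
def T_TP : Prop :=
  ∀ (d l : ℕ) (h : Fin l → ℕ) (p M : ℕ), 0 < p → p ≤ M →
    (p : ℝ) ^ (d + 1) * ∑ z ∈ mulc d p M, TZ h p M z ≤
      Real.sqrt ((3 * (M : ℝ)) ^ (d + 1) * DDc (d + 1) h p M)

/-- [EV] Long sides. -/
def T_EV : Prop :=
  ∀ (d l : ℕ) (h : Fin l → ℕ) (p Q M : ℕ) (z : Fin d → ℤ), (∃ i, (M : ℤ) ≤ |z i|) →
    (∀ φ : ℝ, RZ h p Q M z φ = 0) ∧ TZ h p M z = 0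

/-- [P1] One prime. -/
def T_P1 : Prop :=
  ∀ (d l : ℕ) (h : Fin l → ℕ) (q : ℕ) [NeZero q] (N M p Q : ℕ) (δ θ : ℝ)
    (τ : (Fin d → ZMod q) → ZMod q) (R : Finset ((Fin d → ZMod q) × (Fin d → ZMod q))),
    p.Prime → p ∣ Q → 0 < Q → p ≤ M → M / p ≤ N → M ≤ q * p → 0 < δ → 0 ≤ θ →
    2 ^ d * ((N : ℝ) - (M / p : ℕ)) ≤ δ / 2 * q → DDc (d + 1) h p M ≤ θ * (M : ℝ) ^ (d + 3) →
    64 * 3 ^ (d + 1) * θ ≤ δ ^ 6 → δ * (q : ℝ) ^ (2 * d) ≤ (R.card : ℝ) →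
    (∀ x ∈ R, δ * q ≤ ‖hs h N (lft x.1) (((τ x.1).val : ℝ) / q)‖) →
    δ ^ 3 / 8 * (p : ℝ) ^ 2 * (q : ℝ) ^ (2 * d + 2) ≤
      Q * ∑ x ∈ R, (RZ h p Q M (sm p (lft x.1)) (((τ x.1).val : ℝ) / q / p)).re

/-! ## The affine trick -/

/-- [AF] The affine parametrisation. -/
def T_AF : Prop :=
  ∀ (d q : ℕ) [NeZero q] (N Q p U : ℕ) (R : Finset ((Fin d → ZMod q) × (Fin d → ZMod q)))
    (Φ : (Fin d → ℤ) → (Fin d → ZMod q) → ℝ), 0 < p → 0 < N → 5 * N ≤ q → Q / p * U ≤ 2 * N →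
    (∀ s b, (∃ i, (N : ℤ) ≤ |s i|) → Φ s b = 0) →
    (2 * (U : ℝ) + 1) ^ d * ∑ x ∈ R, Φ (lft x.1) x.2 =
      ∑ u ∈ box d U, ∑ c ∈ box d (3 * N), ∑ b : Fin d → ZMod q,
        if (red q (pt Q u c (p : ℤ)), b) ∈ R then Φ (pt Q u c (p : ℤ)) b else 0

/-- [SW] The sum over the primes. -/
def T_SW : Prop :=
  ∀ (d l : ℕ) (h : Fin l → ℕ) (q : ℕ) [NeZero q] (N M Q P : ℕ) (A : Finset ℕ) (δ θ : ℝ)
    (τ : (Fin d → ZMod q) → ZMod q) (R : Finset ((Fin d → ZMod q) × (Fin d → ZMod q))),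
    0 < Q → 0 < N → 5 * N ≤ q → 0 < δ → 0 ≤ θ → 64 * 3 ^ (d + 1) * θ ≤ δ ^ 6 →
    (∀ p ∈ A, p.Prime ∧ p ∣ Q ∧ P ≤ p ∧ p ≤ M ∧ M / p ≤ N ∧ M ≤ N * p ∧
      2 ^ d * ((N : ℝ) - (M / p : ℕ)) ≤ δ / 2 * q ∧
      DDc (d + 1) h p M ≤ θ * (M : ℝ) ^ (d + 3)) →
    δ * (q : ℝ) ^ (2 * d) ≤ (R.card : ℝ) →
    (∀ x ∈ R, δ * q ≤ ‖hs h N (lft x.1) (((τ x.1).val : ℝ) / q)‖) →
    (A.card : ℝ) * (2 * ((M / Q : ℕ) : ℝ) + 1) ^ d *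
      (δ ^ 3 / 8 * (P : ℝ) ^ 2 * (q : ℝ) ^ (2 * d + 2)) ≤ Q * Om2 h N M Q A R τ

/-! ## The generalised von Neumann inequality -/

/-- [PR] The correlation over a cube with sides depending on `p` as a sum of products. -/
def T_PR : Prop :=
  ∀ (d l : ℕ) (h : Fin l → ℕ) (p B M : ℕ) (Q s₀ : ℤ) (u c : Fin d → ℤ), (∀ i, p * h i ≤ B) →
    CAc h p M (cns s₀ (fun i => Q * u i + p * c i)) =
      ∑ y ∈ Finset.Icc (1 : ℤ) M, ∏ x : Finset (Fin d) × Option (Fin l),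
        GG M B Q s₀ u x (y + p * vv h c x)

/-- [GZ] The generalised von Neumann inequality on the integers. -/
def T_GZ : Prop :=
  ∀ (ι : Type) [Fintype ι] (X L : ℕ) (J Y : Finset ℤ) (G : ι → ℤ → ℂ) (v : ι → ℤ)
    (A : Finset ℤ) (c : ℤ → ℂ), 0 < Fintype.card ι → J.card ≤ L → (∀ i z, ‖G i z‖ ≤ 1) →
    (∀ i z, z ∉ J → G i z = 0) → (∀ p ∈ A, ∀ q ∈ A, |p - q| ≤ (X : ℤ)) →
    (∀ p ∈ A, ∀ y, y ∉ Y → ∏ i, G i (y + p * v i) = 0) →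
    ‖∑ p ∈ A, c p * ∑ y ∈ Y, ∏ i, G i (y + p * v i)‖ ^ (2 ^ Fintype.card ι) ≤
      (L : ℝ) ^ (2 ^ Fintype.card ι) *
        (2 * X + 1) ^ (2 ^ Fintype.card ι - (Fintype.card ι + 1)) *
        (Uc X (Fintype.card ι) A c).re

/-- [CT] The inequality for the correlations over cubes with sides depending on `p`. -/
def T_CT : Prop :=
  ∀ (d l : ℕ) (h : Fin l → ℕ) (A : Finset ℕ) (B X M : ℕ) (Q s₀ : ℤ) (u c : Fin d → ℤ)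
    (w : ℤ → ℂ), (∀ p ∈ A, ∀ i, p * h i ≤ B) → (∀ p ∈ A, ∀ q ∈ A, |(p : ℤ) - q| ≤ (X : ℤ)) →
    (∀ i, |Q * u i| ≤ (M : ℤ)) →
    ‖∑ p ∈ A, w p * ((CAc h p M (cns s₀ (fun i => Q * u i + p * c i)) : ℝ) : ℂ)‖ ^
        (2 ^ nf d l) ≤
      ((2 * d + 1) * (M : ℝ) + B) ^ (2 ^ nf d l) *
        (2 * X + 1) ^ (2 ^ nf d l - (nf d l + 1)) *
        (Uc X (nf d l) (A.map Nat.castEmbedding) w).re

/-- [HO] Hoelder's inequality and the expansion over the cubes. -/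
def T_HO : Prop :=
  ∀ (d l : ℕ) (h : Fin l → ℕ) (q : ℕ) [NeZero q] (N M Q X B : ℕ) (A : Finset ℕ)
    (τ : (Fin d → ZMod q) → ZMod q) (R : Finset ((Fin d → ZMod q) × (Fin d → ZMod q))),
    0 < Q → (∀ p ∈ A, 0 < p ∧ p ∣ Q) → (∀ p ∈ A, ∀ i, p * h i ≤ B) →
    (∀ p ∈ A, ∀ p' ∈ A, |(p : ℤ) - p'| ≤ (X : ℤ)) →
    (Om2 h N M Q A R τ) ^ (2 ^ nf d l) ≤
      ((2 * ((M / Q : ℕ) : ℝ) + 1) ^ (d + 1) * (6 * (N : ℝ) + 1) ^ d * (q : ℝ) ^ d) ^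
          (2 ^ nf d l - 1) *
        (((2 * d + 1) * (M : ℝ) + B) ^ (2 ^ nf d l) *
          (2 * X + 1) ^ (2 ^ nf d l - (nf d l + 1))) * Om3 (nf d l) N M Q X A R τ

/-! ## Cubes and geometric sums -/

/-- [DS] The vertices of the cubes and the iterated difference as an alternating sum. -/
def T_DS : Prop :=
  ∀ (n : ℕ) (A : Finset ℤ) (t : Fin n → ℤ) (φ : ℤ → ℝ) (x : ℤ),
    (x ∈ cub n A t ↔ ∀ ω : Finset (Fin n), vx x t ω ∈ A) ∧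
    dl n t φ x = ∑ ω : Finset (Fin n), (-1 : ℝ) ^ ω.card * φ (vx x t ω)

/-- [RH] The phase of the geometric sum. -/
def T_RH : Prop :=
  ∀ (d n q Q : ℕ) (τ : (Fin d → ZMod q) → ZMod q) (u c : Fin d → ℤ) (x : ℤ) (t : Fin n → ℤ),
    0 < q → (∀ ω, 0 < vx x t ω ∧ vx x t ω ∣ (Q : ℤ)) →
    (Q : ℝ) * dl n t (phs τ Q u c) x = (rho τ Q u c x t : ℝ) / q

/-- [GE] The geometric sum. -/
def T_GE : Prop :=
  ∀ (Q M q : ℕ) (ρ : ℤ) (ψ : ℝ), 0 < Q → 0 < q → (Q : ℝ) * ψ = (ρ : ℝ) / q →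
    ‖∑ s ∈ mul Q M, ee (s * ψ)‖ ≤ 2 * ((M / Q : ℕ) : ℝ) + 1 ∧
    2 * ((|(ρ : ZMod q).valMinAbs| : ℤ) : ℝ) * ‖∑ s ∈ mul Q M, ee (s * ψ)‖ ≤ q

/-- [PH] Pigeonhole: one cube, one `c` and one value of the alternating sum. -/
def T_PH : Prop :=
  ∀ (d n q : ℕ) [NeZero q] (N M Q X C : ℕ) (A : Finset ℕ) (f : ℝ)
    (τ : (Fin d → ZMod q) → ZMod q) (R : Finset ((Fin d → ZMod q) × (Fin d → ZMod q))),
    0 < n → 0 < Q → 0 < f → (∀ p ∈ A, 0 < p ∧ p ∣ Q) →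
    (∀ p ∈ A, ∀ p' ∈ A, |(p : ℤ) - p'| ≤ (X : ℤ)) →
    4 * (n : ℝ) ≤ f * (2 * X + 1) → (q : ℝ) ≤ f / 2 * C * (2 * ((M / Q : ℕ) : ℝ) + 1) →
    2 * (M / Q) + 1 ≤ q →
    f * ((2 * ((M / Q : ℕ) : ℝ) + 1) ^ (d + 1) * (6 * (N : ℝ) + 1) ^ d * (q : ℝ) ^ d *
      (2 * X + 1) ^ (n + 1)) ≤ Om3 n N M Q X A R τ →
    ∃ (x : ℤ) (t : Fin n → ℤ) (c : Fin d → ZMod q) (r : ZMod q)
      (F : Finset ((Fin d → ZMod q) × (Fin d → ZMod q))), (∀ i, t i ≠ 0) ∧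
      (∀ ω, ∃ p ∈ A, vx x t ω = (p : ℤ)) ∧
      f / 2 * (2 * ((M / Q : ℕ) : ℝ) + 1) ^ d * (q : ℝ) ^ d ≤ (2 * (C : ℝ) + 1) * F.card ∧
      ∀ y ∈ F, (∀ ω, ((fun i => c i + (((Q : ℤ) / vx x t ω : ℤ) : ZMod q) * y.1 i), y.2) ∈ R) ∧
        ∑ ω : Finset (Fin n), (-1) ^ ω.card * (((Q : ℤ) / vx x t ω : ℤ) : ZMod q) *
          τ (fun i => c i + (((Q : ℤ) / vx x t ω : ℤ) : ZMod q) * y.1 i) = r

/-! ## The final statement of the chapter -/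

/-- [GB] The affine relation at a scale with a small defect. -/
def T_GB : Prop :=
  ∀ (d l : ℕ) (h : Fin l → ℕ) (δ c₀ : ℝ), 0 < δ → δ ≤ 1 → 0 < c₀ →
    ∃ θ : ℝ, 0 < θ ∧ ∃ m₀ : ℕ, ∀ m, m₀ ≤ m → c₀ * 2 ^ m / m ≤ ((Pset 1 m).card : ℝ) →
      ∃ P : ℕ, 0 < P ∧ P ≤ 2 ^ (m + 1) ∧ ∃ f : ℝ, 0 < f ∧ ∃ N₀ : ℕ,
        ∀ (q : ℕ) [NeZero q] (N M : ℕ), N₀ ≤ N → M / P = N → 5 * N ≤ q → q ≤ 10 * N + 10 →
        ∑ p ∈ Pset 1 m, DDc (d + 1) h p M ≤ θ * (Pset 1 m).card * (M : ℝ) ^ (d + 3) →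
        ∀ (τ : (Fin d → ZMod q) → ZMod q) (R : Finset ((Fin d → ZMod q) × (Fin d → ZMod q))),
        δ * (q : ℝ) ^ (2 * d) ≤ (R.card : ℝ) →
        (∀ x ∈ R, δ * q ≤ ‖hs h N (lft x.1) (((τ x.1).val : ℝ) / q)‖) →
        ∃ (x : ℤ) (t : Fin (nf d l) → ℤ) (c : Fin d → ZMod q) (r : ZMod q)
          (F : Finset ((Fin d → ZMod q) × (Fin d → ZMod q))), (∀ i, t i ≠ 0) ∧
          (∀ ω, 0 < vx x t ω ∧ vx x t ω ≤ 2 ^ (m + 1) ∧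
            vx x t ω ∣ (primorial (2 ^ (m + 1)) : ℤ)) ∧
          f * (q : ℝ) ^ (2 * d) ≤ (F.card : ℝ) ∧
          ∀ y ∈ F, (∀ ω, ((fun i => c i +
              (((primorial (2 ^ (m + 1)) : ℤ) / vx x t ω : ℤ) : ZMod q) * y.1 i), y.2) ∈ R) ∧
            ∑ ω : Finset (Fin (nf d l)), (-1) ^ ω.card *
              (((primorial (2 ^ (m + 1)) : ℤ) / vx x t ω : ℤ) : ZMod q) *
              τ (fun i => c i +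
                (((primorial (2 ^ (m + 1)) : ℤ) / vx x t ω : ℤ) : ZMod q) * y.1 i) = r

end Pool.Agent.H66.GUA
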